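import Mathlib
import Pool.Agent.H51.EG2

set_option autoImplicit false

/-!
# The multiset of edge imbalances is graphic

Let `G` be a finite simple graph in which every edge joins two vertices of different degrees. Then
the multiset `M_G` of the imbalances `|deg u - deg v|`, `uv` an edge, is the degree multiset of a
simple graph.

Proof. The sum of the imbalances is even. By the Erdős–Gallai theorem it remains to show, for each
set `T` of `k ≥ 1` edges, `∑_{e ∈ T} imb e ≤ k (k - 1) + ∑_{e ∉ T} min (imb e) k`. Let `m` be the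
largest imbalance in `T`, attained at `uv`, `d = deg u > deg v`. We may assume `m ≥ k`. We have
`d ≥ m + 1`. One counts the edges not in `T` at `u` (with their values) and the edges not in `T`,
not at `u`, which meet the neighbours `w` of `u` with `uw ∉ T`, `deg w ≥ d - k`.
-/

namespace Pool.Agent.Results.MP_440a65_co.ImbalanceGraphic

open Finset

variable {V : Type*} [Fintype V] [DecidableEq V]

/-- The imbalance `|deg u - deg v|` of the pair `uv` in the graph `G`. -/
def imb (G : SimpleGraph V) [DecidableRel G.Adj] : Sym2 V → ℕ :=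
  Sym2.lift ⟨fun u v => Int.natAbs ((G.degree u : ℤ) - (G.degree v : ℤ)), fun u v => by
    dsimp only; omega⟩

/-- The multiset `M_G` of the imbalances of the edges of `G`; it has `|E(G)|` elements. -/
def imbMultiset (G : SimpleGraph V) [DecidableRel G.Adj] : Multiset ℕ :=
  G.edgeFinset.val.map (imb G)

/-- A finite multiset is graphic if it is the multiset of the degrees of a simple graph with the
vertices `0, …, n - 1` for some `n`. -/
def IsGraphic (M : Multiset ℕ) : Prop :=
  ∃ (n : ℕ) (H : SimpleGraph (Fin n)) (_ : DecidableRel H.Adj),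
    (Finset.univ : Finset (Fin n)).val.map (fun i => H.degree i) = M

section core

variable (G : SimpleGraph V) [DecidableRel G.Adj]

omit [DecidableEq V] in
lemma imb_mk (u v : V) : imb G s(u, v) = Int.natAbs ((G.degree u : ℤ) - (G.degree v : ℤ)) := rfl

/-- the arithmetic -/
lemma arith {k d τ a1 : ℤ} (hτ1 : 1 ≤ τ) (hτk : τ ≤ k) (hkd : k + 1 ≤ d) (h0 : 0 ≤ a1)
    (ha : a1 ≤ d - τ) :
    2 * k * (d - k) ≤ 2 * a1 * (d - 1) + 2 * (d - τ - a1) * k - a1 * (a1 - 1) - 2 * (k - τ) := by
  obtain ⟨x, hx⟩ : ∃ x, x = d - k := ⟨_, rfl⟩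
  obtain ⟨y, hy⟩ : ∃ y, y = k - τ := ⟨_, rfl⟩
  have hx1 : 1 ≤ x := by omega
  have hy0 : 0 ≤ y := by omega
  have hyk : y ≤ k - 1 := by omega
  have ha' : a1 ≤ x + y := by omega
  have key : 0 ≤ 2 * (k - 1) * y + a1 * (2 * x - 1 - a1) := by
    by_cases h : a1 ≤ 2 * x - 1
    · have h1 : 0 ≤ (k - 1) * y := mul_nonneg (by omega) hy0
      have h2 : 0 ≤ a1 * (2 * x - 1 - a1) := mul_nonneg h0 (by omega)
      linarith
    · push Not at h
      have h1 : a1 * (a1 + 1 - 2 * x) ≤ (x + y) * (y + 1 - x) :=
        mul_le_mul ha' (by omega) (by omega) (by omega)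
      have h2 : y * y ≤ (k - 1) * y := mul_le_mul_of_nonneg_right hyk hy0
      have h3 : 0 ≤ y * (y - 1) := by
        rcases lt_or_ge y 1 with h4 | h4
        · have : y = 0 := by omega
          rw [this]; simp
        · exact mul_nonneg hy0 (by omega)
      have h4 : 0 ≤ x * (x - 1) := mul_nonneg (by omega) (by omega)
      nlinarith
  have hd : d = k + x := by omega
  have hτ : τ = k - y := by omega
  subst hd hτ
  nlinarith

/-- The Erdős–Gallai inequalities for the imbalances. -/
lemma core (hG : ∀ e ∈ G.edgeFinset, 0 < imb G e) (T : Finset (Sym2 V)) (hT : T ⊆ G.edgeFinset) :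
    ∑ e ∈ T, imb G e ≤ T.card * (T.card - 1) + ∑ e ∈ G.edgeFinset \ T, min (imb G e) T.card := by
  classical
  rcases T.eq_empty_or_nonempty with rfl | hne
  · simp
  obtain ⟨e0, he0, hmax⟩ := Finset.exists_max_image T (imb G) hne
  obtain ⟨k, hk⟩ : ∃ k, k = T.card := ⟨_, rfl⟩
  obtain ⟨m, hm⟩ : ∃ m, m = imb G e0 := ⟨_, rfl⟩
  have hk1 : 1 ≤ k := by rw [hk]; exact hne.card_pos
  have hsum : ∑ e ∈ T, imb G e ≤ k * m := by
    have := Finset.sum_le_card_nsmul T (imb G) m (fun e he => hm ▸ hmax e he)
    rw [smul_eq_mul, ← hk] at this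
    exact this
  rw [← hk]
  by_cases hmk : m ≤ k - 1
  · calc ∑ e ∈ T, imb G e ≤ k * m := hsum
      _ ≤ k * (k - 1) := Nat.mul_le_mul_left _ hmk
      _ ≤ _ := Nat.le_add_right _ _
  push Not at hmk
  have hmk' : k ≤ m := by omega
  -- the vertex `u`
  obtain ⟨u, v, huv, hlt, hdm⟩ : ∃ u v, e0 = s(u, v) ∧ G.degree v < G.degree u ∧
      G.degree u = m + G.degree v := by
    have h1 : ∃ u v, e0 = s(u, v) := by
      induction e0 using Sym2.ind with
      | _ x y => exact ⟨x, y, rfl⟩
    obtain ⟨x, y, hxy⟩ := h1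
    have h2 : m = Int.natAbs ((G.degree x : ℤ) - (G.degree y : ℤ)) := by
      rw [hm, hxy, imb_mk]
    rcases Nat.lt_or_ge (G.degree x) (G.degree y) with h3 | h3
    · refine ⟨y, x, by rw [hxy, Sym2.eq_swap], h3, ?_⟩
      omega
    · refine ⟨x, y, hxy, ?_, ?_⟩ <;> omega
  have hadj : G.Adj u v := by
    have := hT he0
    rw [huv, SimpleGraph.mem_edgeFinset, SimpleGraph.mem_edgeSet] at this
    exact this
  have hdv : 1 ≤ G.degree v := by
    rw [Nat.succ_le_iff, SimpleGraph.degree_pos_iff_exists_adj]
    exact ⟨u, hadj.symm⟩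
  obtain ⟨d, hd⟩ : ∃ d, d = G.degree u := ⟨_, rfl⟩
  have hdm1 : m + 1 ≤ d := by omega
  -- neighbours of `u`
  set N := G.neighborFinset u with hN
  have hNc : N.card = d := by rw [hN, SimpleGraph.card_neighborFinset_eq_degree, hd]
  set NT := N.filter (fun w => s(u, w) ∈ T) with hNT
  set N' := N.filter (fun w => s(u, w) ∉ T) with hN'
  have hNN : NT.card + N'.card = d := by
    rw [← hNc]; exact Finset.card_filter_add_card_filter_not _
  set W1 := N'.filter (fun w => d ≤ G.degree w + k) with hW1
  set W2 := N'.filter (fun w => ¬ d ≤ G.degree w + k) with hW2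
  have hWW : W1.card + W2.card = N'.card := Finset.card_filter_add_card_filter_not _
  have hinj : Function.Injective (fun w : V => s(u, w)) := by
    intro a b hab
    exact Sym2.congr_right.1 hab
  set Tu := T.filter (fun e => u ∈ e) with hTu
  set Tn := T.filter (fun e => u ∉ e) with hTn
  have hTT : Tu.card + Tn.card = k := by
    rw [hk]; exact Finset.card_filter_add_card_filter_not _
  have hNTu : NT.card ≤ Tu.card := by
    rw [← Finset.card_image_of_injective NT hinj]
    apply Finset.card_le_card
    intro e he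
    rw [Finset.mem_image] at he
    obtain ⟨w, hw, rfl⟩ := he
    rw [hNT, Finset.mem_filter] at hw
    rw [hTu, Finset.mem_filter]
    exact ⟨hw.2, Sym2.mem_mk_left u w⟩
  have hNT1 : 1 ≤ NT.card := by
    rw [Nat.succ_le_iff, Finset.card_pos]
    refine ⟨v, ?_⟩
    rw [hNT, Finset.mem_filter, hN, SimpleGraph.mem_neighborFinset]
    exact ⟨hadj, huv ▸ he0⟩
  -- the edges meeting `W1`, not at `u`
  set E := G.edgeFinset with hE
  set F := E.filter (fun e => u ∉ e ∧ ∃ w ∈ W1, w ∈ e) with hF
  set I := E.filter (fun e => ∀ w ∈ e, w ∈ W1) with hI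
  have hIc : 2 * I.card ≤ W1.card * (W1.card - 1) := by
    have h1 : I ⊆ W1.offDiag.image (fun p => s(p.1, p.2)) := by
      intro e he
      rw [hI, Finset.mem_filter] at he
      induction e using Sym2.ind with
      | _ x y =>
        rw [Finset.mem_image]
        refine ⟨(x, y), ?_, rfl⟩
        rw [Finset.mem_offDiag]
        refine ⟨he.2 x (Sym2.mem_mk_left x y), he.2 y (Sym2.mem_mk_right x y), ?_⟩
        have := he.1
        rw [hE, SimpleGraph.mem_edgeFinset, SimpleGraph.mem_edgeSet] at this
        exact this.ne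
    have h2 := Finset.card_le_card h1
    have h3 : (W1.offDiag.image (fun p => s(p.1, p.2))).card = W1.card.choose 2 :=
      Sym2.card_image_offDiag W1
    have h5 := Nat.choose_two_right W1.card
    have h4 : 2 * (W1.card * (W1.card - 1) / 2) ≤ W1.card * (W1.card - 1) := Nat.mul_div_le _ _
    rw [h3, h5] at h2
    omega
  have hcount : ∑ w ∈ W1, (G.degree w - 1) ≤ F.card + I.card := by
    have h1 : ∀ w ∈ W1, G.degree w - 1 = (E.filter (fun e => u ∉ e ∧ w ∈ e)).card := by
      intro w hw
      have hwN : G.Adj u w := by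
        have h2 := (Finset.mem_filter.1 (Finset.mem_filter.1 hw).1).1
        rw [hN, SimpleGraph.mem_neighborFinset] at h2
        exact h2
      have h3 : E.filter (fun e => u ∉ e ∧ w ∈ e) = (G.incidenceFinset w).erase s(u, w) := by
        ext e
        rw [Finset.mem_filter, Finset.mem_erase, SimpleGraph.mem_incidenceFinset, hE,
          SimpleGraph.mem_edgeFinset]
        constructor
        · rintro ⟨h4, h5, h6⟩
          refine ⟨?_, h4, h6⟩
          rintro rfl
          exact h5 (Sym2.mem_mk_left u w)
        · rintro ⟨h4, h5, h6⟩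
          refine ⟨h5, ?_, h6⟩
          intro h7
          apply h4
          exact (Sym2.mem_and_mem_iff hwN.ne).1 ⟨h7, h6⟩
      rw [h3, Finset.card_erase_of_mem, SimpleGraph.card_incidenceFinset_eq_degree]
      rw [SimpleGraph.mem_incidenceFinset]
      exact ⟨hwN, Sym2.mem_mk_right u w⟩
    rw [Finset.sum_congr rfl h1]
    have h2 : ∑ w ∈ W1, (E.filter (fun e => u ∉ e ∧ w ∈ e)).card
        = ∑ e ∈ E, (if u ∉ e then (W1.filter (fun w => w ∈ e)).card else 0) := by
      simp_rw [Finset.card_filter]
      rw [Finset.sum_comm]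
      apply Finset.sum_congr rfl
      intro e _
      by_cases hu : u ∈ e
      · simp [hu]
      · simp [hu]
    rw [h2]
    have h3 : ∀ e ∈ E, (if u ∉ e then (W1.filter (fun w => w ∈ e)).card else 0)
        ≤ (if (u ∉ e ∧ ∃ w ∈ W1, w ∈ e) then 1 else 0) + (if ∀ w ∈ e, w ∈ W1 then 1 else 0) := by
      intro e he
      by_cases hu : u ∈ e
      · simp [hu]
      · rw [if_pos hu]
        induction e using Sym2.ind with
        | _ x y =>
          have hxy : x ≠ y := by
            rw [hE, SimpleGraph.mem_edgeFinset, SimpleGraph.mem_edgeSet] at he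
            exact he.ne
          have h4 : W1.filter (fun w => w ∈ s(x, y)) ⊆ {x, y} := by
            intro w hw
            rw [Finset.mem_filter, Sym2.mem_iff] at hw
            rw [Finset.mem_insert, Finset.mem_singleton]
            exact hw.2
          by_cases hx : x ∈ W1 <;> by_cases hy : y ∈ W1
          · have h5 := Finset.card_le_card h4
            rw [Finset.card_pair hxy] at h5
            rw [if_pos ⟨hu, x, hx, Sym2.mem_mk_left x y⟩, if_pos]
            · omega
            · intro w hw
              rcases Sym2.mem_iff.1 hw with rfl | rfl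
              · exact hx
              · exact hy
          · have h5 : W1.filter (fun w => w ∈ s(x, y)) ⊆ {x} := by
              intro w hw
              have h6 := h4 hw
              rw [Finset.mem_insert, Finset.mem_singleton] at h6
              rcases h6 with rfl | rfl
              · exact Finset.mem_singleton_self _
              · exact absurd (Finset.mem_filter.1 hw).1 hy
            have h6 := Finset.card_le_card h5
            rw [Finset.card_singleton] at h6
            rw [if_pos ⟨hu, x, hx, Sym2.mem_mk_left x y⟩]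
            omega
          · have h5 : W1.filter (fun w => w ∈ s(x, y)) ⊆ {y} := by
              intro w hw
              have h6 := h4 hw
              rw [Finset.mem_insert, Finset.mem_singleton] at h6
              rcases h6 with rfl | rfl
              · exact absurd (Finset.mem_filter.1 hw).1 hx
              · exact Finset.mem_singleton_self _
            have h6 := Finset.card_le_card h5
            rw [Finset.card_singleton] at h6
            rw [if_pos ⟨hu, y, hy, Sym2.mem_mk_right x y⟩]
            omega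
          · have h5 : W1.filter (fun w => w ∈ s(x, y)) = ∅ := by
              rw [Finset.eq_empty_iff_forall_notMem]
              intro w hw
              have h6 := h4 hw
              rw [Finset.mem_insert, Finset.mem_singleton] at h6
              rcases h6 with rfl | rfl
              · exact hx (Finset.mem_filter.1 hw).1
              · exact hy (Finset.mem_filter.1 hw).1
            rw [h5]
            simp
    refine (Finset.sum_le_sum h3).trans ?_
    rw [Finset.sum_add_distrib, hF, hI, Finset.card_filter, Finset.card_filter]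
  -- the cost
  have hFT : F.card ≤ (F \ T).card + Tn.card := by
    have h1 : F ⊆ (F \ T) ∪ Tn := by
      intro e he
      rw [Finset.mem_union, Finset.mem_sdiff]
      by_cases h2 : e ∈ T
      · right
        rw [hTn, Finset.mem_filter]
        exact ⟨h2, (Finset.mem_filter.1 he).2.1⟩
      · left; exact ⟨he, h2⟩
    exact (Finset.card_le_card h1).trans (Finset.card_union_le _ _)
  have hcost : ∑ w ∈ N', min (imb G s(u, w)) k + (F \ T).card ≤
      ∑ e ∈ E \ T, min (imb G e) k := by
    have h1 : Disjoint (N'.image (fun w => s(u, w))) (F \ T) := by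
      rw [Finset.disjoint_left]
      intro e he he'
      rw [Finset.mem_image] at he
      obtain ⟨w, _, rfl⟩ := he
      exact (Finset.mem_filter.1 (Finset.mem_sdiff.1 he').1).2.1 (Sym2.mem_mk_left u w)
    have h2 : (N'.image (fun w => s(u, w))) ∪ (F \ T) ⊆ E \ T := by
      intro e he
      rw [Finset.mem_union] at he
      rcases he with he | he
      · rw [Finset.mem_image] at he
        obtain ⟨w, hw, rfl⟩ := he
        rw [hN', Finset.mem_filter, hN, SimpleGraph.mem_neighborFinset] at hw
        rw [Finset.mem_sdiff, hE, SimpleGraph.mem_edgeFinset]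
        exact ⟨hw.1, hw.2⟩
      · rw [Finset.mem_sdiff] at he ⊢
        exact ⟨(Finset.mem_filter.1 he.1).1, he.2⟩
    have h3 : ((F \ T).card : ℕ) ≤ ∑ e ∈ F \ T, min (imb G e) k := by
      rw [Finset.card_eq_sum_ones]
      apply Finset.sum_le_sum
      intro e he
      have h4 : e ∈ E := (Finset.mem_filter.1 (Finset.mem_sdiff.1 he).1).1
      have h5 := hG e h4
      exact le_min h5 hk1
    calc ∑ w ∈ N', min (imb G s(u, w)) k + (F \ T).card
        ≤ ∑ e ∈ N'.image (fun w => s(u, w)), min (imb G e) k + ∑ e ∈ F \ T, min (imb G e) k := by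
          rw [Finset.sum_image (fun a _ b _ hab => hinj hab)]
          exact Nat.add_le_add_left h3 _
      _ = ∑ e ∈ (N'.image (fun w => s(u, w))) ∪ (F \ T), min (imb G e) k :=
          (Finset.sum_union h1).symm
      _ ≤ ∑ e ∈ E \ T, min (imb G e) k :=
          Finset.sum_le_sum_of_subset h2
  have hW1sum : W1.card * (d - 1) ≤ ∑ w ∈ W1, (min (imb G s(u, w)) k + (G.degree w - 1)) := by
    rw [← smul_eq_mul]
    apply Finset.card_nsmul_le_sum
    intro w hw
    have h1 := (Finset.mem_filter.1 hw).2
    have h2 : G.Adj u w := by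
      have h2 := (Finset.mem_filter.1 (Finset.mem_filter.1 hw).1).1
      rw [hN, SimpleGraph.mem_neighborFinset] at h2
      exact h2
    have h3 : 1 ≤ G.degree w := by
      rw [Nat.succ_le_iff, SimpleGraph.degree_pos_iff_exists_adj]
      exact ⟨u, h2.symm⟩
    rw [imb_mk, ← hd]
    omega
  have hW2sum : W2.card * k ≤ ∑ w ∈ W2, min (imb G s(u, w)) k := by
    rw [← smul_eq_mul]
    apply Finset.card_nsmul_le_sum
    intro w hw
    have h1 := (Finset.mem_filter.1 hw).2
    rw [imb_mk, ← hd]
    omega
  have hsplit : ∑ w ∈ N', min (imb G s(u, w)) k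
      = ∑ w ∈ W1, min (imb G s(u, w)) k + ∑ w ∈ W2, min (imb G s(u, w)) k :=
    (Finset.sum_filter_add_sum_filter_not N' _ _).symm
  rw [Finset.sum_add_distrib] at hW1sum
  -- conclusion
  have key := arith (k := (k : ℤ)) (d := (d : ℤ)) (τ := (NT.card : ℤ)) (a1 := (W1.card : ℤ))
    (by exact_mod_cast hNT1) (by exact_mod_cast (by omega : NT.card ≤ k))
    (by exact_mod_cast (by omega : k + 1 ≤ d)) (Int.natCast_nonneg _)
    (by have : W1.card + NT.card ≤ d := by omega
        have h2 : (W1.card : ℤ) + NT.card ≤ d := by exact_mod_cast this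
        linarith)
  obtain ⟨C, hC⟩ : ∃ C, C = ∑ e ∈ E \ T, min (imb G e) k := ⟨_, rfl⟩
  rw [← hC] at hcost ⊢
  have hW2c : (W2.card : ℤ) = d - NT.card - W1.card := by
    have : W1.card + W2.card + NT.card = d := by omega
    have h2 : (W1.card : ℤ) + W2.card + NT.card = d := by exact_mod_cast this
    linarith
  have hTnc : (Tn.card : ℤ) ≤ k - NT.card := by
    have : NT.card + Tn.card ≤ k := by omega
    have h2 : (NT.card : ℤ) + Tn.card ≤ k := by exact_mod_cast this
    linarith
  have e1 : ((W1.card * (d - 1) : ℕ) : ℤ) = (W1.card : ℤ) * ((d : ℤ) - 1) := by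
    rw [Nat.cast_mul, Nat.cast_sub (by omega)]; simp
  have e2 : ((k * (k - 1) : ℕ) : ℤ) = (k : ℤ) * ((k : ℤ) - 1) := by
    rw [Nat.cast_mul, Nat.cast_sub (by omega)]; simp
  have e3 : ((W1.card * (W1.card - 1) : ℕ) : ℤ) = (W1.card : ℤ) * ((W1.card : ℤ) - 1) := by
    rcases Nat.eq_zero_or_pos W1.card with h0 | h0
    · rw [h0]; simp
    · rw [Nat.cast_mul, Nat.cast_sub h0]; simp
  have f1 : ((W1.card * (d - 1) : ℕ) : ℤ) ≤
      ((∑ w ∈ W1, min (imb G s(u, w)) k + ∑ w ∈ W1, (G.degree w - 1) : ℕ) : ℤ) := by
    exact_mod_cast hW1sum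
  have f2 : ((W2.card * k : ℕ) : ℤ) ≤ ((∑ w ∈ W2, min (imb G s(u, w)) k : ℕ) : ℤ) := by
    exact_mod_cast hW2sum
  obtain ⟨S1, hS1⟩ : ∃ S1, S1 = ∑ w ∈ W1, min (imb G s(u, w)) k := ⟨_, rfl⟩
  obtain ⟨S2, hS2⟩ : ∃ S2, S2 = ∑ w ∈ W2, min (imb G s(u, w)) k := ⟨_, rfl⟩
  obtain ⟨S3, hS3⟩ : ∃ S3, S3 = ∑ w ∈ W1, (G.degree w - 1) := ⟨_, rfl⟩
  rw [← hS1, ← hS3] at f1
  rw [← hS2] at f2
  rw [← hS3] at hcount
  rw [hsplit, ← hS1, ← hS2] at hcost
  have g1 : (S1 : ℤ) + S2 + (F \ T).card ≤ C := by exact_mod_cast hcost
  have g2 : (F.card : ℤ) ≤ (F \ T).card + Tn.card := by exact_mod_cast hFT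
  have g3 : (S3 : ℤ) ≤ F.card + I.card := by exact_mod_cast hcount
  have g4 : 2 * (I.card : ℤ) ≤ (W1.card : ℤ) * ((W1.card : ℤ) - 1) := by
    rw [← e3]; exact_mod_cast hIc
  rw [e1] at f1
  push_cast at f1 f2
  rw [hW2c] at f2
  have g5 : (k : ℤ) * m ≤ k * (d - 1) := by
    apply mul_le_mul_of_nonneg_left _ (Int.natCast_nonneg _)
    have : (m : ℤ) + 1 ≤ d := by exact_mod_cast hdm1
    linarith
  have final : (k : ℤ) * m ≤ (k : ℤ) * ((k : ℤ) - 1) + C := by
    nlinarith
  have final' : ((k * m : ℕ) : ℤ) ≤ ((k * (k - 1) + C : ℕ) : ℤ) := by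
    rw [Nat.cast_add, e2, Nat.cast_mul]
    exact final
  exact hsum.trans (by exact_mod_cast final')

/-- The sum of the imbalances is even. -/
lemma even_sum_imb : Even (∑ e ∈ G.edgeFinset, imb G e) := by
  have h1 : Even (∑ e ∈ G.edgeFinset, (imb G e + ∑ v, if v ∈ e then G.degree v else 0)) := by
    apply Finset.even_sum
    intro e he
    induction e using Sym2.ind with
    | _ x y =>
      rw [SimpleGraph.mem_edgeFinset, SimpleGraph.mem_edgeSet] at he
      have h2 : ∑ v, (if v ∈ s(x, y) then G.degree v else 0) = G.degree x + G.degree y := by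
        rw [← Finset.sum_filter]
        have h3 : (Finset.univ.filter (fun v => v ∈ s(x, y))) = {x, y} := by
          ext v
          simp
        rw [h3, Finset.sum_pair he.ne]
      rw [h2, imb_mk, Nat.even_iff]
      omega
  have h2 : ∑ e ∈ G.edgeFinset, ∑ v, (if v ∈ e then G.degree v else 0)
      = ∑ v, G.degree v * G.degree v := by
    rw [Finset.sum_comm]
    apply Finset.sum_congr rfl
    intro v _
    rw [← Finset.sum_filter, Finset.sum_const, smul_eq_mul]
    congr 1
    rw [← SimpleGraph.card_incidenceFinset_eq_degree]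
    congr 1
    ext e
    rw [Finset.mem_filter, SimpleGraph.mem_incidenceFinset, SimpleGraph.mem_edgeFinset]
    rfl
  have h3 : Even (∑ v, G.degree v * G.degree v + ∑ v, G.degree v) := by
    rw [← Finset.sum_add_distrib]
    apply Finset.even_sum
    intro v _
    have := Nat.even_mul_succ_self (G.degree v)
    rwa [Nat.mul_succ] at this
  have h4 : Even (∑ v, G.degree v) := by
    rw [SimpleGraph.sum_degrees_eq_twice_card_edges]
    exact even_two_mul _
  rw [Finset.sum_add_distrib, h2] at h1
  have h5 := (Nat.even_add.1 h3).2 h4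
  exact (Nat.even_add.1 h1).2 h5

end core

/-- **The multiset of the edge imbalances is graphic.** If `G` is a finite simple graph and every
edge of `G` has a positive imbalance, then the multiset `M_G` of the imbalances of the edges of `G`
is the multiset of the degrees of a simple graph. -/
theorem result {V : Type*} [Fintype V] [DecidableEq V] (G : SimpleGraph V) [DecidableRel G.Adj]
    (hG : ∀ e ∈ G.edgeFinset, 0 < imb G e) : IsGraphic (imbMultiset G) := by
  classical
  obtain ⟨n, f, hf⟩ : ∃ (n : ℕ) (f : Fin n ↪ Sym2 V),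
      (Finset.univ : Finset (Fin n)).map f = G.edgeFinset := by
    let g : Fin G.edgeFinset.card ↪ Sym2 V :=
      ⟨fun i => ((G.edgeFinset.equivFin.symm i : G.edgeFinset) : Sym2 V), fun a b h => by
        have := Subtype.ext h
        exact G.edgeFinset.equivFin.symm.injective this⟩
    refine ⟨G.edgeFinset.card, g, ?_⟩
    ext x
    rw [Finset.mem_map]
    constructor
    · rintro ⟨i, _, rfl⟩
      exact (G.edgeFinset.equivFin.symm i).2
    · intro hx
      refine ⟨G.edgeFinset.equivFin ⟨x, hx⟩, Finset.mem_univ _, ?_⟩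
      show ((G.edgeFinset.equivFin.symm (G.edgeFinset.equivFin ⟨x, hx⟩) : G.edgeFinset) : Sym2 V) = x
      rw [Equiv.symm_apply_apply]
  have hev : Even (∑ i, imb G (f i)) := by
    have h1 := Finset.sum_map (Finset.univ : Finset (Fin n)) f (imb G)
    rw [hf] at h1
    rw [← h1]
    exact even_sum_imb G
  obtain ⟨A, hA, hAd⟩ := Pool.Agent.H51.EG.eg_subset (fun i => imb G (f i)) hev (by
    intro K
    have h1 := core G hG (K.map f) (by
      rw [← hf]
      exact Finset.map_subset_map.2 (Finset.subset_univ K))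
    rw [Finset.card_map, Finset.sum_map] at h1
    refine h1.trans (le_of_eq ?_)
    congr 1
    have h2 : G.edgeFinset \ K.map f = Kᶜ.map f := by
      rw [← hf, ← Finset.map_sdiff, Finset.compl_eq_univ_sdiff]
    rw [h2, Finset.sum_map])
  refine ⟨n, Pool.Agent.H51.EG.toG A hA, Classical.decRel _, ?_⟩
  have hR := Pool.Agent.H51.EG.toG_realizes hA hAd
  have h3 : (fun i => (Pool.Agent.H51.EG.toG A hA).degree i) = fun i => imb G (f i) := by
    funext i
    have h4 : ((Pool.Agent.H51.EG.toG A hA).neighborSet i).ncard = imb G (f i) := hR i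
    rw [← h4, ← SimpleGraph.card_neighborSet_eq_degree, Set.ncard_eq_toFinset_card',
      Set.toFinset_card]
  rw [h3]
  unfold imbMultiset
  rw [← hf, Finset.map_val, Multiset.map_map]
  rfl

end Pool.Agent.Results.MP_440a65_co.ImbalanceGraphic
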